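import Pool.Agent.MP_c1891a_nt.G43.Spec

/-! An irreducible polynomial of full rank gives a full system. -/

namespace Pool.Agent.MP_c1891a_nt.G43

open Finset Module

theorem irr_sub {A : Type} [CommRing A] [IsDomain A] [Algebra ℂ A] {r n : ℕ} (z : Fin r → A)
    (y : Fin n → A) (hy : AlgebraicIndependent ℂ y)
    (h : ∀ k, IsAlgebraic (Algebra.adjoin ℂ (Set.range z)) (y k)) :
    ∃ σ : Fin n → Fin r, AlgebraicIndependent ℂ (z ∘ σ) := by
  obtain ⟨B, hB⟩ := (AlgebraicIndependent.matroid ℂ A).exists_isBasis (Set.range z)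
  have hI : (AlgebraicIndependent.matroid ℂ A).Indep (Set.range y) := hy.to_subtype_range
  have hs : Set.range y ⊆ (AlgebraicIndependent.matroid ℂ A).closure (Set.range z) := by
    rintro _ ⟨k, rfl⟩
    rw [AlgebraicIndependent.matroid_closure_eq]
    exact h k
  have h1 := hI.encard_le_eRk_of_subset hs
  rw [Matroid.eRk_closure_eq, hB.eRk_eq_encard] at h1
  obtain ⟨t, ht, hc⟩ := Set.exists_subset_encard_eq (hy.injective.encard_range.trans h1)
  have hc' : t.encard = n := by simpa using hc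
  have hf : t.Finite := Set.finite_of_encard_eq_coe hc'
  have : Finite t := hf
  have hn : Nat.card t = n := by
    have h2 := hf.cast_ncard_eq
    rw [hc'] at h2
    exact_mod_cast h2
  let e := Finite.equivFinOfCardEq hn
  have hT : AlgebraicIndependent ℂ ((↑) : t → A) := hB.indep.subset ht
  choose σ hσ using fun k : Fin n => hB.subset (ht (e.symm k).2)
  refine ⟨σ, ?_⟩
  have e1 : z ∘ σ = ((↑) : t → A) ∘ e.symm := funext hσ
  rw [e1]
  exact hT.comp _ e.symm.injective

theorem irr_all {A : Type} [CommRing A] [IsDomain A] [Algebra ℂ A] {r n : ℕ} (z : Fin r → A)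
    (y : Fin n → A) (hy : AlgebraicIndependent ℂ y)
    (h : ∀ k, IsAlgebraic (Algebra.adjoin ℂ (Set.range z)) (y k)) (hn : r ≤ n) :
    AlgebraicIndependent ℂ z := by
  obtain ⟨σ, hσ⟩ := irr_sub z (y ∘ Fin.castLE hn) (hy.comp _ (Fin.castLE_injective hn))
    fun k => h _
  have hi : Function.Injective σ := Function.Injective.of_comp hσ.injective
  exact (algebraicIndependent_equiv
    (Equiv.ofBijective σ (Finite.injective_iff_bijective.1 hi))).1 hσ

theorem irr_alg {F : Type} [Field F] [Algebra ℂ F] {r : ℕ} (x : AddChar (Fin r → ℤ) F)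
    (l : Fin r → ℤ) :
    IsAlgebraic (Algebra.adjoin ℂ (Set.range fun i => x (Pi.single i 1))) (x l) := by
  let T : AddSubgroup (Fin r → ℤ) :=
    { carrier := {l | IsAlgebraic (Algebra.adjoin ℂ (Set.range fun i => x (Pi.single i 1))) (x l)}
      zero_mem' := by
        change IsAlgebraic _ (x 0)
        rw [x.map_zero_eq_one]
        exact isAlgebraic_one
      add_mem' := fun {a b} ha hb => by
        change IsAlgebraic _ (x (a + b))
        rw [x.map_add_eq_mul]
        exact IsAlgebraic.mul ha hb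
      neg_mem' := fun {a} ha => by
        change IsAlgebraic _ (x (-a))
        rw [x.map_neg_eq_inv]
        exact IsAlgebraic.inv ha }
  have e : l = ∑ i, l i • (Pi.single i 1 : Fin r → ℤ) := by
    funext j
    simp [Pi.single_apply]
  have hT : l ∈ T := by
    rw [e]
    refine sum_mem fun i _ => zsmul_mem ?_ _
    exact isAlgebraic_algebraMap
      (⟨_, Algebra.subset_adjoin ⟨i, rfl⟩⟩ :
        Algebra.adjoin ℂ (Set.range fun i => x (Pi.single i 1)))
  exact hT

theorem irr_mon {F : Type} [Field F] [Algebra ℂ F] {r : ℕ} (x : AddChar (Fin r → ℤ) F)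
    (μ : Fin r →₀ ℕ) (c : ℂ) :
    MvPolynomial.aeval (fun i => x (Pi.single i 1)) (MvPolynomial.monomial μ c) =
      algebraMap ℂ F c * x fun i => (μ i : ℤ) := by
  have e : (fun i => (μ i : ℤ)) = ∑ i, μ i • (Pi.single i 1 : Fin r → ℤ) := by
    funext j
    simp [Pi.single_apply]
  have h : ∀ s : Finset (Fin r), x (∑ i ∈ s, μ i • (Pi.single i 1 : Fin r → ℤ)) =
      ∏ i ∈ s, x (Pi.single i 1) ^ μ i := by
    intro s
    induction s using Finset.induction_on with
    | empty => simp
    | insert a s ha ih => rw [sum_insert ha, prod_insert ha, x.map_add_eq_mul, ih,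
        x.map_nsmul_eq_pow]
  rw [MvPolynomial.aeval_monomial, e, h, Finsupp.prod_fintype _ _ fun i => pow_zero _]

theorem irr_part {r : ℕ} {Q : MvPolynomial (Fin r) ℂ} (hQ : Q ≠ 0) (s : Finset (Fin r →₀ ℕ))
    (hs : s ⊆ Q.support) (hne : s.Nonempty)
    (hd : Q ∣ ∑ μ ∈ s, MvPolynomial.monomial μ (Q.coeff μ)) : s = Q.support := by
  classical
  set P := ∑ μ ∈ s, MvPolynomial.monomial μ (Q.coeff μ) with hP
  have hc : ∀ ν, P.coeff ν = if ν ∈ s then Q.coeff ν else 0 := by
    intro ν
    rw [hP, MvPolynomial.coeff_sum]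
    simp only [MvPolynomial.coeff_monomial]
    rw [sum_ite_eq']
  have hsup : P.support = s := by
    ext ν
    rw [MvPolynomial.mem_support_iff, hc]
    by_cases h : ν ∈ s
    · simpa [h] using hs h
    · simp [h]
  have hP0 : P ≠ 0 := by
    intro h0
    rw [h0, MvPolynomial.support_zero] at hsup
    exact hne.ne_empty hsup.symm
  obtain ⟨g, hg⟩ := hd
  have hg0 : g ≠ 0 := by
    rintro rfl
    exact hP0 (by rw [hg, mul_zero])
  have h1 : P.totalDegree ≤ Q.totalDegree :=
    MvPolynomial.totalDegree_le_of_support_subset (hsup ▸ hs)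
  rw [hg, MvPolynomial.totalDegree_mul_of_isDomain hQ hg0] at h1
  have h2 : g = MvPolynomial.C (g.coeff 0) :=
    MvPolynomial.totalDegree_eq_zero_iff_eq_C.1 (by omega)
  have h3 : g.coeff 0 ≠ 0 := by
    intro h0
    exact hg0 (by rw [h2, h0, MvPolynomial.C_0])
  refine Subset.antisymm hs fun ν hν => ?_
  rw [← hsup, hg, h2, mul_comm, MvPolynomial.mem_support_iff, MvPolynomial.coeff_C_mul]
  exact mul_ne_zero h3 (MvPolynomial.mem_support_iff.1 hν)

theorem sIrr (h : SInj) : SIrr := by
  classical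
  intro r Q hQ hu
  have hr : finrank ℤ (Fin r → ℤ) = r := by simp
  have hlt : ∀ (F : Type) [Field F] [Algebra ℂ F] (x : AddChar (Fin r → ℤ) F),
      MvPolynomial.aeval (fun i => x (Pi.single i 1)) Q = 0 → ∀ n, TD x n → n + 1 ≤ r := by
    intro F _ _ x h0 n ⟨l, hl⟩
    by_contra hn
    exact hQ.ne_zero ((irr_all _ _ hl (fun k => irr_alg x _) (by omega)).eq_zero_of_aeval_eq_zero
      Q h0)
  have hsum : ∀ (F : Type) [Field F] [Algebra ℂ F] (x : AddChar (Fin r → ℤ) F)
      (s : Finset (Fin r →₀ ℕ)), MvPolynomial.aeval (fun i => x (Pi.single i 1))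
        (∑ μ ∈ s, MvPolynomial.monomial μ (Q.coeff μ)) =
        ∑ μ ∈ s, algebraMap ℂ F (Q.coeff μ) * x fun i => (μ i : ℤ) := by
    intro F _ _ x s
    rw [map_sum]
    exact sum_congr rfl fun μ _ => irr_mon x μ _
  refine ⟨fun F _ _ x hx n hn => ?_, fun u hu0 F _ _ x hx n hn => ?_⟩
  · rw [hr]
    refine hlt F x ?_ n hn
    have h1 := hx ()
    rw [Q.as_sum, hsum]
    simpa [Sys.cs] using h1
  · rw [hr]
    have hk : ∀ k : ℤ, MvPolynomial.aeval (fun i => x (Pi.single i 1))
        (∑ μ ∈ Q.support with u (fun i => (μ i : ℤ)) = k,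
          MvPolynomial.monomial μ (Q.coeff μ)) = 0 := by
      intro k
      have h1 := hx ((), k)
      rw [hsum]
      simpa [Sys.cs] using h1
    have h0 : MvPolynomial.aeval (fun i => x (Pi.single i 1)) Q = 0 := by
      rw [Q.as_sum, ← sum_fiberwise_of_maps_to (t := Q.support.image fun μ => u fun i => (μ i : ℤ))
        (g := fun μ => u fun i => (μ i : ℤ)) (fun μ hμ => mem_image_of_mem _ hμ), map_sum]
      exact sum_eq_zero fun k _ => hk k
    have h1 := hlt F x h0 n hn
    by_contra h2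
    obtain rfl : r = n + 1 := by omega
    obtain ⟨l, hl⟩ := hn
    obtain ⟨σ, hσ⟩ := irr_sub _ _ hl fun k => irr_alg x _
    have hp : (Ideal.span {Q}).IsPrime :=
      (Ideal.span_singleton_prime hQ.ne_zero).2 hQ.prime
    let ψ : (MvPolynomial (Fin (n + 1)) ℂ ⧸ Ideal.span {Q}) →ₐ[ℂ] F :=
      Ideal.Quotient.liftₐ _ (MvPolynomial.aeval fun i => x (Pi.single i 1)) fun a ha => by
        obtain ⟨b, rfl⟩ := Ideal.mem_span_singleton'.1 ha
        rw [map_mul, h0, mul_zero]
    have hψ : ∀ p, ψ (Ideal.Quotient.mk _ p) =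
        MvPolynomial.aeval (fun i => x (Pi.single i 1)) p := fun p => rfl
    have hmk : ∀ p : MvPolynomial (Fin (n + 1)) ℂ,
        MvPolynomial.aeval (fun i => Ideal.Quotient.mk (Ideal.span {Q}) (MvPolynomial.X i)) p =
          Ideal.Quotient.mk (Ideal.span {Q}) p := by
      intro p
      have : MvPolynomial.aeval (fun i => Ideal.Quotient.mk (Ideal.span {Q}) (MvPolynomial.X i)) =
          Ideal.Quotient.mkₐ ℂ (Ideal.span {Q}) := MvPolynomial.algHom_ext fun i => by simp
      rw [this]
      rfl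
    have hinj := (h ℂ _ F ψ n (fun k => Ideal.Quotient.mk _ (MvPolynomial.X (σ k)))
      (by simp only [hψ, MvPolynomial.aeval_X]; exact hσ) fun y hy => by
        have h3 := irr_all (fun i => Ideal.Quotient.mk (Ideal.span {Q}) (MvPolynomial.X i)) y hy
          (fun k => by
            obtain ⟨p, hp⟩ := Ideal.Quotient.mk_surjective (y k)
            have hm : y k ∈ Algebra.adjoin ℂ (Set.range fun i =>
                Ideal.Quotient.mk (Ideal.span {Q}) (MvPolynomial.X i)) := by
              rw [Algebra.adjoin_range_eq_range_aeval]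
              exact ⟨p, (hmk p).trans hp⟩
            exact isAlgebraic_algebraMap (⟨_, hm⟩ : Algebra.adjoin ℂ _)) le_rfl
        refine hQ.ne_zero (h3.eq_zero_of_aeval_eq_zero Q ?_)
        rw [hmk]
        exact Ideal.Quotient.eq_zero_iff_mem.2 (Ideal.mem_span_singleton_self Q)).1
    obtain ⟨μ, hμ, ν, hν, hne⟩ := hu u hu0
    have hd := hk (u fun i => (μ i : ℤ))
    rw [← hψ, map_eq_zero_iff ψ hinj, Ideal.Quotient.eq_zero_iff_mem,
      Ideal.mem_span_singleton] at hd
    have he := irr_part hQ.ne_zero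
      (Q.support.filter fun ν => u (fun i => (ν i : ℤ)) = u fun i => (μ i : ℤ))
      (filter_subset _ _) ⟨μ, mem_filter.2 ⟨hμ, rfl⟩⟩ hd
    rw [← he] at hν
    exact hne (mem_filter.1 hν).2.symm

end Pool.Agent.MP_c1891a_nt.G43
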